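import Pool.Agent.Helper74.NS.Basic

/-!
# Expanding families of permutations exist (counting)
-/

namespace Pool.Agent.Helper92.NS

open Finset Pool.Agent.Helper74.NS

/-- The permutations which map `X` into `Q`. -/
noncomputable def into {N : ℕ} (Q X : Finset (Fin N)) : Finset (Equiv.Perm (Fin N)) :=
  univ.filter (fun g => ∀ u ∈ X, g u ∈ Q)

theorem exists_move {N : ℕ} (Q : Finset (Fin N)) (hQ : 2 * Q.card ≤ N) :
    ∃ r : Fin N → Fin N, Set.InjOn r Q ∧ ∀ q ∈ Q, r q ∉ Q := by
  classical
  have hc : Fintype.card (↥Q) ≤ Fintype.card (↥(Qᶜ)) := by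
    rw [Fintype.card_coe, Fintype.card_coe, card_compl, Fintype.card_fin]
    omega
  obtain ⟨f⟩ := Function.Embedding.nonempty_of_card_le hc
  refine ⟨fun q => if h : q ∈ Q then (f ⟨q, h⟩ : Fin N) else q, ?_, ?_⟩
  · intro x hx y hy hxy
    have hx' : x ∈ Q := hx
    have hy' : y ∈ Q := hy
    simp only [dif_pos hx', dif_pos hy'] at hxy
    have h := f.injective (Subtype.ext hxy)
    exact congrArg Subtype.val h
  · intro q hq
    simp only [dif_pos hq]
    exact mem_compl.1 (f ⟨q, hq⟩).2

theorem into_step {N : ℕ} (Q X : Finset (Fin N)) (hQ : 2 * Q.card ≤ N) (u : Fin N) (hu : u ∉ X) :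
    2 * (into Q (insert u X)).card ≤ (into Q X).card := by
  classical
  obtain ⟨r, hr, hrQ⟩ := exists_move Q hQ
  set P := into Q (insert u X) with hP
  set F : Equiv.Perm (Fin N) → Equiv.Perm (Fin N) := fun g => g.trans (Equiv.swap (g u) (r (g u))) with hF
  have hFu : ∀ g, F g u = r (g u) := by
    intro g
    simp [hF, Equiv.swap_apply_left]
  have hPm : ∀ g ∈ P, g u ∈ Q ∧ ∀ x ∈ X, g x ∈ Q := by
    intro g hg
    have h := (mem_filter.1 hg).2
    exact ⟨h u (mem_insert_self _ _), fun x hx => h x (mem_insert_of_mem hx)⟩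
  have hinj : Set.InjOn F P := by
    intro g hg h hh hgh
    have h1 : r (g u) = r (h u) := by rw [← hFu g, ← hFu h, hgh]
    have h2 : g u = h u := hr (hPm g hg).1 (hPm h hh).1 h1
    have h3 : F g = F h := hgh
    simp only [hF, h2] at h3
    ext x
    have h4 := congrArg (fun e : Equiv.Perm (Fin N) => e x) h3
    simp only [Equiv.trans_apply] at h4
    have h5 := (Equiv.swap (h u) (r (h u))).injective h4
    rw [h5]
  have hsub1 : P ⊆ into Q X := by
    intro g hg
    exact mem_filter.2 ⟨mem_univ _, (hPm g hg).2⟩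
  have hsub2 : P.image F ⊆ into Q X := by
    intro g' hg'
    obtain ⟨g, hg, rfl⟩ := mem_image.1 hg'
    refine mem_filter.2 ⟨mem_univ _, fun x hx => ?_⟩
    have h1 := (hPm g hg).2 x hx
    have hne : x ≠ u := fun h => hu (h ▸ hx)
    have h2 : g x ≠ g u := fun h => hne (g.injective h)
    have h3 : g x ≠ r (g u) := fun h => hrQ _ (hPm g hg).1 (h ▸ h1)
    simp only [hF, Equiv.trans_apply]
    rw [Equiv.swap_apply_of_ne_of_ne h2 h3]
    exact h1
  have hdis : Disjoint P (P.image F) := by
    rw [disjoint_left]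
    intro g' h1 h2
    obtain ⟨g, hg, hgg⟩ := mem_image.1 h2
    have h3 := (hPm g' h1).1
    rw [← hgg, hFu] at h3
    exact hrQ _ (hPm g hg).1 h3
  calc 2 * P.card = P.card + (P.image F).card := by rw [card_image_of_injOn hinj]; ring
    _ = (P ∪ P.image F).card := (card_union_of_disjoint hdis).symm
    _ ≤ (into Q X).card := card_le_card (union_subset hsub1 hsub2)

theorem card_into {N : ℕ} (Q X : Finset (Fin N)) (hQ : 2 * Q.card ≤ N) :
    (into Q X).card * 2 ^ X.card ≤ N.factorial := by
  classical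
  induction X using Finset.induction_on with
  | empty =>
    have h : (into Q (∅ : Finset (Fin N))).card ≤ Fintype.card (Equiv.Perm (Fin N)) := card_le_univ _
    rw [Fintype.card_perm, Fintype.card_fin] at h
    simpa using h
  | insert u X hu ih =>
    rw [card_insert_of_notMem hu, pow_succ]
    calc (into Q (insert u X)).card * (2 ^ X.card * 2) = 2 * (into Q (insert u X)).card * 2 ^ X.card := by ring
      _ ≤ (into Q X).card * 2 ^ X.card := Nat.mul_le_mul_right _ (into_step Q X hQ u hu)
      _ ≤ N.factorial := ih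

/-- P6b: the binomial coefficient. -/
theorem choose_le (a : ℕ) : (8 * a).choose a ≤ 21 ^ a := by
  induction a with
  | zero => simp
  | succ a ih =>
    have e1 : (8 * (a + 1)).choose (a + 1) * (a + 1).factorial * (7 * (a + 1)).factorial =
        (8 * (a + 1)).factorial := by
      have h := Nat.choose_mul_factorial_mul_factorial (n := 8 * (a + 1)) (k := a + 1) (by omega)
      have h2 : 8 * (a + 1) - (a + 1) = 7 * (a + 1) := by omega
      rwa [h2] at h
    have e2 : (8 * a).choose a * a.factorial * (7 * a).factorial = (8 * a).factorial := by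
      have h := Nat.choose_mul_factorial_mul_factorial (n := 8 * a) (k := a) (by omega)
      have h2 : 8 * a - a = 7 * a := by omega
      rwa [h2] at h
    have f8 : (8 * (a + 1)).factorial = (8 * a).factorial * ((8 * a + 1) * (8 * a + 2) * (8 * a + 3) * (8 * a + 4) *
        (8 * a + 5) * (8 * a + 6) * (8 * a + 7) * (8 * a + 8)) := by
      have : 8 * (a + 1) = 8 * a + 1 + 1 + 1 + 1 + 1 + 1 + 1 + 1 := by ring
      rw [this]
      simp only [Nat.factorial_succ]
      ring
    have f7 : (7 * (a + 1)).factorial = (7 * a).factorial * ((7 * a + 1) * (7 * a + 2) * (7 * a + 3) * (7 * a + 4) *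
        (7 * a + 5) * (7 * a + 6) * (7 * a + 7)) := by
      have : 7 * (a + 1) = 7 * a + 1 + 1 + 1 + 1 + 1 + 1 + 1 := by ring
      rw [this]
      simp only [Nat.factorial_succ]
      ring
    set U := (8 * a + 1) * (8 * a + 2) * (8 * a + 3) * (8 * a + 4) * (8 * a + 5) * (8 * a + 6) * (8 * a + 7) with hU
    set V := (7 * a + 1) * (7 * a + 2) * (7 * a + 3) * (7 * a + 4) * (7 * a + 5) * (7 * a + 6) * (7 * a + 7) with hV
    have hUV : 8 * U ≤ 21 * V := by
      rw [hU, hV]
      have h : ∀ c e k : ℕ, e * 8 ^ (k + 1) ≤ e * (21 * 7 ^ k) → e * 8 ^ (k + 1) * c ≤ e * (21 * 7 ^ k) * c :=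
        fun c e k h => Nat.mul_le_mul_right _ h
      ring_nf
      gcongr <;> norm_num
    have key : (8 * (a + 1)).choose (a + 1) * V = (8 * a).choose a * (8 * U) := by
      have hpos : 0 < (a + 1).factorial * (7 * a).factorial := by positivity
      have hs : (a + 1).factorial = (a + 1) * a.factorial := Nat.factorial_succ a
      apply Nat.eq_of_mul_eq_mul_right hpos
      calc (8 * (a + 1)).choose (a + 1) * V * ((a + 1).factorial * (7 * a).factorial)
          = (8 * (a + 1)).choose (a + 1) * (a + 1).factorial * ((7 * a).factorial * V) := by ring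
        _ = (8 * (a + 1)).factorial := by rw [← f7, e1]
        _ = (8 * a).factorial * (U * (8 * a + 8)) := f8
        _ = (8 * a).choose a * a.factorial * (7 * a).factorial * (U * (8 * a + 8)) := by rw [e2]
        _ = (8 * a).choose a * (8 * U) * ((a + 1).factorial * (7 * a).factorial) := by rw [hs]; ring
    have hVpos : 0 < V := by positivity
    apply Nat.le_of_mul_le_mul_right _ hVpos
    calc (8 * (a + 1)).choose (a + 1) * V = (8 * a).choose a * (8 * U) := key
      _ ≤ 21 ^ a * (21 * V) := Nat.mul_le_mul ih hUV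
      _ = 21 ^ (a + 1) * V := by rw [pow_succ]; ring

/-- P6: the permutations. -/
theorem exists_perms (a : ℕ) (ha : 1 ≤ a) : ∃ g : Fin 13 → Equiv.Perm (Fin (8 * a)), Expands g a := by
  classical
  by_contra hcon
  push Not at hcon
  set N := 8 * a with hN
  set Qs : Finset (Finset (Fin N)) := univ.filter (fun Q => 2 * Q.card ≤ N) with hQs
  have hcover : (univ : Finset (Fin 13 → Equiv.Perm (Fin N))) ⊆
      ((powersetCard a (univ : Finset (Fin N))) ×ˢ Qs).biUnion
        (fun p => Fintype.piFinset (fun _ : Fin 13 => into p.2 p.1)) := by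
    intro g _
    have hg := hcon g
    unfold Expands at hg
    push Not at hg
    obtain ⟨X, hX, hlt⟩ := hg
    obtain ⟨Y, hYX, hYc⟩ := exists_subset_card_eq hX
    rw [mem_biUnion]
    refine ⟨(Y, univ.filter (fun v => ∃ s, ∃ u ∈ X, g s u = v)), ?_, ?_⟩
    · rw [mem_product]
      refine ⟨mem_powersetCard.2 ⟨subset_univ _, hYc⟩, mem_filter.2 ⟨mem_univ _, ?_⟩⟩
      show 2 * (univ.filter (fun v => ∃ s, ∃ u ∈ X, g s u = v)).card ≤ N
      omega
    · rw [Fintype.mem_piFinset]
      intro s
      refine mem_filter.2 ⟨mem_univ _, fun u hu => ?_⟩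
      exact mem_filter.2 ⟨mem_univ _, s, u, hYX hu, rfl⟩
  have h1 := card_le_card hcover
  have h2 := h1.trans card_biUnion_le
  have h3 : ∀ p ∈ (powersetCard a (univ : Finset (Fin N))) ×ˢ Qs,
      (Fintype.piFinset (fun _ : Fin 13 => into p.2 p.1)).card * 2 ^ (13 * a) ≤ N.factorial ^ 13 := by
    intro p hp
    rw [mem_product] at hp
    have hc := (mem_powersetCard.1 hp.1).2
    have hq := (mem_filter.1 hp.2).2
    have h4 := card_into p.2 p.1 hq
    rw [hc] at h4
    rw [Fintype.card_piFinset]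
    simp only [prod_const, card_univ, Fintype.card_fin]
    calc (into p.2 p.1).card ^ 13 * 2 ^ (13 * a) = ((into p.2 p.1).card * 2 ^ a) ^ 13 := by
          rw [mul_pow, ← pow_mul, mul_comm a 13]
      _ ≤ N.factorial ^ 13 := Nat.pow_le_pow_left h4 13
  have h5 : N.factorial ^ 13 * 2 ^ (13 * a) ≤ (21 ^ a * 2 ^ (8 * a)) * N.factorial ^ 13 := by
    have hu : (univ : Finset (Fin 13 → Equiv.Perm (Fin N))).card = N.factorial ^ 13 := by
      rw [card_univ, Fintype.card_fun, Fintype.card_perm, Fintype.card_fin, Fintype.card_fin]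
    rw [hu] at h2
    calc N.factorial ^ 13 * 2 ^ (13 * a)
        ≤ (∑ p ∈ (powersetCard a (univ : Finset (Fin N))) ×ˢ Qs,
            (Fintype.piFinset (fun _ : Fin 13 => into p.2 p.1)).card) * 2 ^ (13 * a) := Nat.mul_le_mul_right _ h2
      _ = ∑ p ∈ (powersetCard a (univ : Finset (Fin N))) ×ˢ Qs,
            (Fintype.piFinset (fun _ : Fin 13 => into p.2 p.1)).card * 2 ^ (13 * a) := by rw [sum_mul]
      _ ≤ ∑ _p ∈ (powersetCard a (univ : Finset (Fin N))) ×ˢ Qs, N.factorial ^ 13 := sum_le_sum h3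
      _ = ((8 * a).choose a * Qs.card) * N.factorial ^ 13 := by
          rw [sum_const, card_product, card_powersetCard, card_univ, Fintype.card_fin, smul_eq_mul]
      _ ≤ (21 ^ a * 2 ^ (8 * a)) * N.factorial ^ 13 := by
          apply Nat.mul_le_mul_right
          apply Nat.mul_le_mul (choose_le a)
          calc Qs.card ≤ Fintype.card (Finset (Fin N)) := card_le_univ _
            _ = 2 ^ (8 * a) := by rw [Fintype.card_finset, Fintype.card_fin]
  have hfac : 0 < N.factorial ^ 13 := by positivity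
  have h6 : 2 ^ (13 * a) ≤ 21 ^ a * 2 ^ (8 * a) := by
    have h7 : 2 ^ (13 * a) * N.factorial ^ 13 ≤ (21 ^ a * 2 ^ (8 * a)) * N.factorial ^ 13 := by
      rw [mul_comm]; exact h5
    exact Nat.le_of_mul_le_mul_right h7 hfac
  have h8 : 21 ^ a * 2 ^ (8 * a) < 2 ^ (13 * a) := by
    have e1 : 21 ^ a * 2 ^ (8 * a) = 5376 ^ a := by
      rw [pow_mul, ← mul_pow]; norm_num
    have e2 : 2 ^ (13 * a) = 8192 ^ a := by
      rw [pow_mul]; norm_num
    rw [e1, e2]
    exact Nat.pow_lt_pow_left (by norm_num) (by omega)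
  omega

end Pool.Agent.Helper92.NS
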